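import Pool.Agent.SPT.Defs

/-! Project SPT, module Pol: polynomial time. -/

set_option autoImplicit false

namespace Pool.Agent.SPT

open Pool.Agent.SOC Pool.Agent.SOD Pool.Agent.SOS Pool.Agent.SOT

open FP

variable {β : Type} [Code β]

/-- the parameters are computable in polynomial time -/
structure PParQ (P : ParQ β) : Prop where
  rig : Poly (fun x : β × Ord × List Ivl × List (List Ord) => P.rig x.1 x.2.1 x.2.2.1 x.2.2.2)
  good : Poly (fun x : β × Ord × Key => P.good x.1 x.2.1 x.2.2)
  keys : Poly P.keys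

section
variable {α : Type} [Code α]

theorem poly_candsQ {P : ParQ β} (hP : PParQ P) {M : α → β} {s0 : α → Ord} {F : α → List Ivl} {acc : α → Tab} {I : α → Ivl}
    (hM : Poly M) (hs : Poly s0) (hF : Poly F) (ha : Poly acc) (hI : Poly I) :
    Poly (fun a => candsQ P (M a) (s0 a) (F a) (acc a) (I a)) := by
  unfold candsQ
  have hk : Poly (fun a => kids (s0 a).length (F a) (I a)) :=
    poly_kids (by fun_prop) (PolyBdd.length hs) hF hI
  have hl : Poly (fun a => (kids (s0 a).length (F a) (I a)).map (look (s0 a) (acc a))) := by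
    refine FP.Poly.map (f := fun a => kids (s0 a).length (F a) (I a)) (g := fun a K => look (s0 a) (acc a) K) hk ?_
    exact poly_look (by fun_prop) (by fun_prop) (by fun_prop)
  refine Poly.ite (PolyPred.le (Poly.length hk) (by fun_prop)) (poly_small hl) ?_
  exact hP.rig.comp (f := fun a => (M a, s0 a, kids (s0 a).length (F a) (I a),
    (kids (s0 a).length (F a) (I a)).map (look (s0 a) (acc a)))) (Poly.pair hM (Poly.pair hs (Poly.pair hk hl)))

theorem poly_nodeQ {P : ParQ β} (hP : PParQ P) {M : α → β} {s0 : α → Ord} {F : α → List Ivl} {acc : α → Tab} {I : α → Ivl}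
    (hM : Poly M) (hs : Poly s0) (hF : Poly F) (ha : Poly acc) (hI : Poly I) :
    Poly (fun a => nodeQ P (M a) (s0 a) (F a) (acc a) (I a)) := by
  unfold nodeQ redQ
  have hc := poly_candsQ hP hM hs hF ha hI
  have hf : Poly (fun a => (candsQ P (M a) (s0 a) (F a) (acc a) (I a)).filter fun L => permB L (seg (s0 a) (I a))) := by
    refine Poly.filter (f := fun a => candsQ P (M a) (s0 a) (F a) (acc a) (I a))
      (g := fun a L => permB L (seg (s0 a) (I a))) hc ?_
    exact poly_permB (by fun_prop) (poly_seg (by fun_prop) (by fun_prop))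
  refine poly_clo ?_
  refine Poly.flatMap (f := fun a => P.keys (M a)) (g := fun a k =>
    (((candsQ P (M a) (s0 a) (F a) (acc a) (I a)).filter fun L => permB L (seg (s0 a) (I a))).filter
      fun L => P.good (M a) L k).take 1) (hP.keys.comp hM) ?_
  refine Poly.take (by fun_prop) ?_
  refine Poly.filter (f := fun q : α × Key => (candsQ P (M q.1) (s0 q.1) (F q.1) (acc q.1) (I q.1)).filter
      fun L => permB L (seg (s0 q.1) (I q.1))) (g := fun (q : α × Key) L => P.good (M q.1) L q.2) (hf.comp Poly.fst') ?_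
  exact hP.good.comp (f := fun r : (α × Key) × Ord => (M r.1.1, r.2, r.1.2)) (by fun_prop)


end

variable {P : ParQ β} {M : β} {s0 : Ord} {F : List Ivl} {acc : Tab} {I : Ivl}

theorem nodeQ_len : (nodeQ P M s0 F acc I).length ≤ 2 * (P.keys M).length := by
  have h1 : ∀ (C : List Ord) (L : List Key), (L.flatMap fun k => (C.filter fun l => P.good M l k).take 1).length ≤ L.length := by
    intro C L
    induction L with
    | nil => simp
    | cons k L ih =>
      rw [List.flatMap_cons, List.length_append, List.length_cons]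
      have h2 : ((C.filter fun l => P.good M l k).take 1).length ≤ 1 := List.length_take_le _ _
      omega
  unfold nodeQ clo redQ
  rw [List.length_append, List.length_map]
  have := h1 ((candsQ P M s0 F acc I).filter fun L => permB L (seg s0 I)) (P.keys M)
  omega

theorem nodeQ_mem {L : Ord} (hL : L ∈ nodeQ P M s0 F acc I) : L.length ≤ s0.length ∧ ∀ x ∈ L, x ∈ s0 := by
  have key : ∀ L' : Ord, L' ∈ redQ P M ((candsQ P M s0 F acc I).filter fun L => permB L (seg s0 I)) →
      L'.length ≤ s0.length ∧ ∀ x ∈ L', x ∈ s0 := by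
    intro L' h
    unfold redQ at h
    rw [List.mem_flatMap] at h
    obtain ⟨k, -, h⟩ := h
    have h1 := List.mem_of_mem_take h
    rw [List.mem_filter] at h1
    have h2 := h1.1
    rw [List.mem_filter] at h2
    have h3 := h2.2
    simp only [permB, Bool.and_eq_true, decide_eq_true_eq, List.all_eq_true] at h3
    have h4 : (seg s0 I).Sublist s0 := (List.take_sublist _ _).trans (List.drop_sublist _ _)
    refine ⟨?_, fun x hx => h4.subset (h3.2 x hx)⟩
    rw [h3.1.1]
    exact h4.length_le
  unfold nodeQ clo at hL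
  rw [List.mem_append] at hL
  rcases hL with hL | hL
  · exact key L hL
  · obtain ⟨L', hL', rfl⟩ := List.mem_map.mp hL
    have := key L' hL'
    exact ⟨by simpa using this.1, fun x hx => this.2 x (by simpa using hx)⟩

theorem rndQ_size (P : ParQ β) : ∃ B : Polynomial ℕ, ∀ (M : β) (s0 : Ord) (F : List Ivl) (acc : Tab),
    size (rndQ P M s0 F acc) ≤ B.eval (size (M, s0, F) + (P.keys M).length) := by
  refine ⟨Polynomial.X * (2 * (2 * Polynomial.X + 1 + 2 * Polynomial.X * (2 * (Polynomial.X * (2 * Polynomial.X + 1)) + 1)) + 1), ?_⟩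
  intro M s0 F acc
  have hev : ∀ X : ℕ, (Polynomial.X * (2 * (2 * Polynomial.X + 1 + 2 * Polynomial.X *
      (2 * (Polynomial.X * (2 * Polynomial.X + 1)) + 1)) + 1) : Polynomial ℕ).eval X =
      X * (2 * (2 * X + 1 + 2 * X * (2 * (X * (2 * X + 1)) + 1)) + 1) := by
    intro X; simp
  rw [hev]
  have hsz : size (M, s0, F) = 2 * size M + 1 + (2 * size s0 + 1 + size F) := by
    rw [size_pair, size_pair]
  have hX1 : size s0 ≤ size (M, s0, F) + (P.keys M).length := by omega
  have hX2 : size F ≤ size (M, s0, F) + (P.keys M).length := by omega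
  have hX3 : (P.keys M).length ≤ size (M, s0, F) + (P.keys M).length := by omega
  generalize size (M, s0, F) + (P.keys M).length = X at hX1 hX2 hX3
  have hs := length_le_size s0
  have hF := length_le_size F
  -- members of a nodeQ
  have hL : ∀ I : Ivl, ∀ L ∈ nodeQ P M s0 F acc I, size L ≤ X * (2 * X + 1) := by
    intro I L hL
    obtain ⟨h1, h2⟩ := nodeQ_mem hL
    refine le_trans (PolB_size_le L X fun x hx => ?_) (Nat.mul_le_mul_right _ (by omega))
    have := size_le_of_mem (h2 x hx)
    omega
  have hN : ∀ I : Ivl, size (nodeQ P M s0 F acc I) ≤ 2 * X * (2 * (X * (2 * X + 1)) + 1) := by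
    intro I
    refine le_trans (PolB_size_le _ _ (hL I)) (Nat.mul_le_mul_right _ ?_)
    have := nodeQ_len (P := P) (M := M) (s0 := s0) (F := F) (acc := acc) (I := I)
    omega
  unfold rndQ
  refine le_trans (PolB_size_le _ (2 * X + 1 + 2 * X * (2 * (X * (2 * X + 1)) + 1)) ?_) (Nat.mul_le_mul_right _ ?_)
  · intro x hx
    obtain ⟨I, hI, rfl⟩ := List.mem_map.mp hx
    rw [size_pair]
    have h1 := size_le_of_mem hI
    have h2 := hN I
    omega
  · rw [List.length_map]; omega

theorem poly_tabsQ (hP : PParQ P) : Poly (fun x : β × Ord × List Ivl => tabsQ P x.1 x.2.1 x.2.2 x.2.1.length) := by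
  obtain ⟨B, hB⟩ := rndQ_size P
  obtain ⟨Q, hQ⟩ := (hP.keys.comp (f := fun x : β × Ord × List Ivl => x.1) (by fun_prop)).size_le
  unfold tabsQ
  refine Poly.iterate (f := fun x : β × Ord × List Ivl => x.2.1.length) (g := fun _ => ([] : Tab))
    (h := fun (x : β × Ord × List Ivl) acc => rndQ P x.1 x.2.1 x.2.2 acc) (by fun_prop)
    (PolyBdd.length (by fun_prop)) (FP.Poly.const _) ?_ (B.comp (Polynomial.X + Q)) ?_
  · unfold rndQ
    refine FP.Poly.map (f := fun p : (β × Ord × List Ivl) × Tab => p.1.2.2)
      (g := fun (p : (β × Ord × List Ivl) × Tab) I => (I, nodeQ P p.1.1 p.1.2.1 p.1.2.2 p.2 I)) (by fun_prop) ?_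
    refine Poly.pair (by fun_prop) ?_
    exact poly_nodeQ hP (by fun_prop) (by fun_prop) (by fun_prop) (by fun_prop) (by fun_prop)
  · rintro ⟨M, s0, F⟩ k _
    cases k with
    | zero => simp [size_nil]
    | succ k =>
      rw [Function.iterate_succ_apply']
      refine le_trans (hB M s0 F _) ?_
      rw [Polynomial.eval_comp]
      refine NPC.eval_mono B ?_
      simp only [Polynomial.eval_add, Polynomial.eval_X]
      have h1 := hQ (M, s0, F)
      have h2 := length_le_size (P.keys M)
      simp only at h1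
      omega

theorem poly_solveQ (hP : PParQ P) {tok : β → Ord → Bool} (ht : Poly (fun x : β × Ord => tok x.1 x.2)) :
    Poly (fun x : β × Ord × List Ivl => solveQ P tok x.1 x.2.1 x.2.2) := by
  unfold solveQ
  have hc : Poly (fun x : β × Ord × List Ivl => candsQ P x.1 x.2.1 x.2.2 (tabsQ P x.1 x.2.1 x.2.2 x.2.1.length) (1, x.2.1.length)) :=
    poly_candsQ hP (by fun_prop) (by fun_prop) (by fun_prop) (poly_tabsQ hP) (by fun_prop)
  refine Poly.any (f := fun x : β × Ord × List Ivl => candsQ P x.1 x.2.1 x.2.2 (tabsQ P x.1 x.2.1 x.2.2 x.2.1.length) (1, x.2.1.length))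
    (g := fun (x : β × Ord × List Ivl) L => permB (x.2.1.take 1 ++ L) x.2.1 && tok x.1 (x.2.1.take 1 ++ L)) hc ?_
  have h1 : Poly (fun q : (β × Ord × List Ivl) × Ord => q.1.2.1.take 1 ++ q.2) :=
    Poly.append (Poly.take (by fun_prop) (by fun_prop)) (by fun_prop)
  refine Poly.and (poly_permB h1 (by fun_prop)) ?_
  exact ht.comp (f := fun q : (β × Ord × List Ivl) × Ord => (q.1.1, q.1.2.1.take 1 ++ q.2)) (Poly.pair (by fun_prop) h1)

theorem poly_primeQ (hP : PParQ P) {tok : β → Ord → Bool} (ht : Poly (fun x : β × Ord => tok x.1 x.2))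
    {base : β → Option Ord} (hb : Poly base) {fam : β → Ord → List Ivl} (hf : Poly (fun x : β × Ord => fam x.1 x.2)) :
    Poly (primeQ P tok base fam) := by
  have h1 : Poly (fun q : β × Ord => solveQ P tok q.1 q.2 (fam q.1 q.2)) :=
    (poly_solveQ hP ht).comp (f := fun q : β × Ord => (q.1, q.2, fam q.1 q.2)) (Poly.pair (by fun_prop) (Poly.pair (by fun_prop) hf))
  refine (Poly.optionCases (f := base) (g := fun _ => false) (h := fun M s => solveQ P tok M s (fam M s)) hb (FP.Poly.const _) h1).congr
    (fun M => ?_)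
  unfold primeQ
  cases base M <;> rfl



end Pool.Agent.SPT
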