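import Pool.Agent.SPT.HypP
import Pool.Agent.SPT.Pol

/-! Project SPT, module PolP: polynomial time of the parameters relative to pins. -/

set_option autoImplicit false

open Set

namespace Pool.Agent.SPT

open Pool.Agent.SOC Pool.Agent.SOD Pool.Agent.SOS Pool.Agent.SOP Pool.Agent.SOE Pool.Agent.SOT Pool.Agent.SPE

open FP

theorem poly_pnB {α : Type} [Code α] {pn : α → Prs} {X : α → Ord} (hp : Poly pn) (hX : Poly X) : Poly (fun a => pnB (pn a) (X a)) := by
  unfold pnB
  refine Poly.all (f := pn) (g := fun a (p : ℕ × ℕ) => decide (decide (p.1 ∈ X a) = decide (p.2 ∈ X a))) hp ?_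
  have h1 : Poly (fun q : α × (ℕ × ℕ) => decide (q.2.1 ∈ X q.1)) := Poly.decideMem (by fun_prop) (by fun_prop)
  have h2 : Poly (fun q : α × (ℕ × ℕ) => decide (q.2.2 ∈ X q.1)) := Poly.decideMem (by fun_prop) (by fun_prop)
  exact Poly.decideEq h1 h2

theorem poly_innB {α : Type} [Code α] {pn : α → Prs} {X : α → Ord} (hp : Poly pn) (hX : Poly X) : Poly (fun a => innB (pn a) (X a)) := by
  unfold innB
  refine Poly.all (f := pn) (g := fun a (p : ℕ × ℕ) => !(decide (p.1 ∈ X a)) || (!(decide (p.2 ∈ X a)) ||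
    (decide ((X a).idxOf p.2 = (X a).idxOf p.1 + 1) || decide ((X a).idxOf p.1 = (X a).idxOf p.2 + 1)))) hp ?_
  have h1 : Poly (fun q : α × (ℕ × ℕ) => decide (q.2.1 ∈ X q.1)) := Poly.decideMem (by fun_prop) (by fun_prop)
  have h2 : Poly (fun q : α × (ℕ × ℕ) => decide (q.2.2 ∈ X q.1)) := Poly.decideMem (by fun_prop) (by fun_prop)
  have i1 : Poly (fun q : α × (ℕ × ℕ) => (X q.1).idxOf q.2.1) := Poly.idxOf (by fun_prop) (by fun_prop)
  have i2 : Poly (fun q : α × (ℕ × ℕ) => (X q.1).idxOf q.2.2) := Poly.idxOf (by fun_prop) (by fun_prop)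
  have j1 : Poly (fun q : α × (ℕ × ℕ) => (X q.1).idxOf q.2.1 + 1) := FP.Poly.add i1 (FP.Poly.const 1)
  have j2 : Poly (fun q : α × (ℕ × ℕ) => (X q.1).idxOf q.2.2 + 1) := FP.Poly.add i2 (FP.Poly.const 1)
  exact Poly.or (Poly.not h1) (Poly.or (Poly.not h2) (Poly.or (Poly.decideEq i2 j1) (Poly.decideEq i1 j2)))

theorem poly_epcLP : Poly (fun x : (Mat × Prs) × Ord => epcLP x.1 x.2) := by
  unfold epcLP
  have hr : Poly (fun x : (Mat × Prs) × Ord => List.range (x.2.length + 1)) :=
    Poly.range (by fun_prop) ((PolyBdd.length (by fun_prop)).add (PolyBdd.const 1))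
  refine Poly.flatMap hr ?_
  have hm : Poly (fun q : ((Mat × Prs) × Ord) × ℕ => (List.range (q.1.2.length + 1)).map fun j => (q.2, j)) :=
    FP.Poly.map (g := fun (q : ((Mat × Prs) × Ord) × ℕ) j => (q.2, j)) (hr.comp Poly.fst') (by fun_prop)
  refine Poly.filter hm ?_
  refine Poly.and ?_ (poly_pnB (by fun_prop) (poly_seg (by fun_prop) (by fun_prop)))
  exact PolE_test (M := fun q : (((Mat × Prs) × Ord) × ℕ) × (ℕ × ℕ) => q.1.1.1.1) (s0 := fun q => q.1.1.2) (I := fun q => q.2)
    (by fun_prop) (by fun_prop) (by fun_prop)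

theorem poly_strLP : Poly (fun x : (Mat × Prs) × Ord => strLP x.1 x.2) := by
  unfold strLP
  refine Poly.filter (f := fun x : (Mat × Prs) × Ord => epcLP x.1 x.2)
    (g := fun (x : (Mat × Prs) × Ord) (I : ℕ × ℕ) => (epcLP x.1 x.2).all fun J => !(ovl I J)) poly_epcLP ?_
  refine Poly.all (f := fun q : ((Mat × Prs) × Ord) × (ℕ × ℕ) => epcLP q.1.1 q.1.2)
    (g := fun (q : ((Mat × Prs) × Ord) × (ℕ × ℕ)) (J : ℕ × ℕ) => !(ovl q.2 J)) (poly_epcLP.comp Poly.fst') ?_
  exact Poly.not (PolE_ovl (by fun_prop) (by fun_prop))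

/-- a list without repetitions -/
theorem poly_nodup : Poly (fun L : Ord => decide L.Nodup) := by
  have h : Poly (fun L : Ord => (List.range L.length).all fun i => decide (L.idxOf (L.getD i 0) = i)) := by
    refine Poly.all (f := fun L : Ord => List.range L.length) (g := fun (L : Ord) i => decide (L.idxOf (L.getD i 0) = i))
      (Poly.range (Poly.length Poly.ident) (PolyBdd.length Poly.ident)) ?_
    have h1 : Poly (fun q : Ord × ℕ => q.1.getD q.2 0) := Poly.getD (by fun_prop) (by fun_prop) (by fun_prop)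
    exact Poly.decideEq (Poly.idxOf h1 Poly.fst') Poly.snd'
  refine h.congr fun L => ?_
  rw [Bool.eq_iff_iff, List.all_eq_true, decide_eq_true_eq]
  constructor
  · intro h1
    rw [List.nodup_iff_injective_getElem]
    intro i j hij
    have e1 := of_decide_eq_true (h1 i.val (List.mem_range.2 i.2))
    have e2 := of_decide_eq_true (h1 j.val (List.mem_range.2 j.2))
    rw [List.getD_eq_getElem _ _ i.2] at e1
    rw [List.getD_eq_getElem _ _ j.2] at e2
    apply Fin.ext
    rw [← e1, ← e2]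
    exact congrArg (fun z => L.idxOf z) hij
  · intro h1 i hi
    rw [List.mem_range] at hi
    rw [decide_eq_true_eq, List.getD_eq_getElem _ _ hi]
    exact h1.idxOf_getElem i hi

theorem poly_parP {rig : Mat → Ord → List Ivl → List (List Ord) → List Ord} {good : Mat → Ord → Key → Bool} {keys : Mat → List Key}
    (hr : Poly (fun x : Mat × Ord × List Ivl × List (List Ord) => rig x.1 x.2.1 x.2.2.1 x.2.2.2))
    (hg : Poly (fun x : Mat × Ord × Key => good x.1 x.2.1 x.2.2)) (hk : Poly keys) : PParQ (parP rig good keys) where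
  rig := poly_clo (hr.comp (f := fun x : (Mat × Prs) × Ord × List Ivl × List (List Ord) => (x.1.1, x.2)) (by fun_prop))
  good := by
    refine Poly.and (Poly.and ?_ (poly_innB (by fun_prop) (by fun_prop))) ?_
    · exact hg.comp (f := fun x : (Mat × Prs) × Ord × Key => (x.1.1, x.2)) (by fun_prop)
    · exact poly_nodup.comp (f := fun x : (Mat × Prs) × Ord × Key => x.2.1) (by fun_prop)
  keys := hk.comp (f := fun x : Mat × Prs => x.1) (by fun_prop)

end Pool.Agent.SPT
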