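import Pool.Agent.SOT.MainT
import Pool.Agent.SOT.PolE

/-! Project SPT (MP_66ba69_lc, the dynamic program of SOT for orders with a further condition), module Defs.

The same program as in SOT, with an input `x` of any type in place of the matrix; `Q` is the property of the orders (invariant under rotation), `inn` is
a property of all entries of the tables. -/

set_option autoImplicit false

namespace Pool.Agent.SPT

open Pool.Agent.SOC Pool.Agent.SOD Pool.Agent.SOS Pool.Agent.SOT

/-- the parameters: rigid nodes, keys -/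
structure ParQ (α : Type) where
  rig : α → Ord → List Ivl → List (List Ord) → List Ord
  good : α → Ord → Key → Bool
  keys : α → List Key

section
variable {α : Type}

/-- candidates for the orders of `seg s0 I` -/
def candsQ (P : ParQ α) (x : α) (s0 : Ord) (F : List Ivl) (acc : Tab) (I : Ivl) : List Ord :=
  if (kids s0.length F I).length ≤ 5 then small ((kids s0.length F I).map (look s0 acc))
  else P.rig x s0 (kids s0.length F I) ((kids s0.length F I).map (look s0 acc))

/-- one candidate for every key -/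
def redQ (P : ParQ α) (x : α) (C : List Ord) : List Ord :=
  (P.keys x).flatMap fun k => (C.filter fun L => P.good x L k).take 1

/-- the new table of `I` -/
def nodeQ (P : ParQ α) (x : α) (s0 : Ord) (F : List Ivl) (acc : Tab) (I : Ivl) : List Ord :=
  clo (redQ P x ((candsQ P x s0 F acc I).filter fun L => permB L (seg s0 I)))

/-- one round -/
def rndQ (P : ParQ α) (x : α) (s0 : Ord) (F : List Ivl) (acc : Tab) : Tab := F.map fun I => (I, nodeQ P x s0 F acc I)

/-- the tables after `k` rounds -/
def tabsQ (P : ParQ α) (x : α) (s0 : Ord) (F : List Ivl) (k : ℕ) : Tab := (rndQ P x s0 F)^[k] []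

/-- the final test -/
def solveQ (P : ParQ α) (tok : α → Ord → Bool) (x : α) (s0 : Ord) (F : List Ivl) : Bool :=
  (candsQ P x s0 F (tabsQ P x s0 F s0.length) (1, s0.length)).any fun L =>
    permB (s0.take 1 ++ L) s0 && tok x (s0.take 1 ++ L)

/-- the algorithm -/
def primeQ (P : ParQ α) (tok : α → Ord → Bool) (base : α → Option Ord) (fam : α → Ord → List Ivl) (x : α) : Bool :=
  match base x with
  | none => false
  | some s0 => solveQ P tok x s0 (fam x s0)

/-- the table `C` is complete for `S` -/
def CmpQ (Q : Ord → Prop) (C : List Ord) (S : Ord) : Prop :=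
  ∀ L R : Ord, L.Perm S → Q (L ++ R) → ∃ L' ∈ C, Q (L' ++ R)

/-- the hypotheses on the parameters -/
structure HypQ (P : ParQ α) (x : α) (n : ℕ) (Q : Ord → Prop) (inn : Ord → Prop) (s0 : Ord) (F : List Ivl) : Prop where
  base : s0.Perm (List.range n)
  four : 4 ≤ n
  fam : Lam s0.length F
  rot : ∀ {A B : Ord}, Q (A ++ B) → Q (B ++ A)
  perm : ∀ {l : Ord}, Q l → l.Perm (List.range n)
  int : ∀ l, Q l → ∀ I ∈ F, Cyc l (seg s0 I)
  rep : ∀ I ∈ F, ∀ L R : Ord, L.Perm (seg s0 I) → Q (L ++ R) →
    ∃ k ∈ P.keys x, P.good x L k = true ∧ ∀ L' : Ord, L'.Perm L → P.good x L' k = true → Q (L' ++ R)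
  inn1 : ∀ L k, P.good x L k = true → inn L
  innr : ∀ L, inn L → inn L.reverse
  inns : ∀ L : Ord, L.length ≤ 1 → inn L
  rig : ∀ I, Nod s0.length F I → 6 ≤ (kids s0.length F I).length → ∀ C : Ivl → List Ord,
    (∀ K ∈ kids s0.length F I, ∀ L ∈ C K, L.Perm (seg s0 K) ∧ L.reverse ∈ C K) →
    (∀ K ∈ kids s0.length F I, ∀ L ∈ C K, inn L) →
    ∀ Ks : List Ivl, Ks.Perm (kids s0.length F I) → ∀ Ls : List Ord, List.Forall₂ (fun L K => L ∈ C K) Ls Ks →
      ∀ R, Q (Ls.flatten ++ R) → ∃ L ∈ P.rig x s0 (kids s0.length F I) ((kids s0.length F I).map C), Q (L ++ R)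

end

end Pool.Agent.SPT
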