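import Pool.Agent.SPT.Step

/-! Project SPT, module Main: correctness. -/

set_option autoImplicit false

namespace Pool.Agent.SPT

open Pool.Agent.SOC Pool.Agent.SOD Pool.Agent.SOS Pool.Agent.SOT

variable {α : Type} {P : ParQ α} {x : α} {n : ℕ} {Q inn : Ord → Prop} {s0 : Ord} {F : List Ivl}

/-- all entries of the tables are orders of the right sets with the property, and the tables are closed under reversal -/
def OkQ (inn : Ord → Prop) (s0 : Ord) (F : List Ivl) (acc : Tab) : Prop :=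
  (∀ I ∈ F, ∀ L ∈ look s0 acc I, L.Perm (seg s0 I) ∧ L.reverse ∈ look s0 acc I) ∧ ∀ I ∈ F, ∀ L ∈ look s0 acc I, inn L

theorem stepQ_nod (h : HypQ P x n Q inn s0 F) {I : Ivl} (hI : Nod s0.length F I) : I.1 < I.2 ∧ I.2 ≤ s0.length := by
  rcases hI with hI | hI
  · have h1 := h.fam.len I hI
    exact ⟨by omega, h.fam.hi I hI⟩
  · have h1 := h.base.length_eq
    rw [List.length_range] at h1
    have h2 := h.four
    subst hI
    constructor
    · show 1 < s0.length
      omega
    · exact le_rfl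

theorem look_kidQ (h : HypQ P x n Q inn s0 F) {acc : Tab} (ha : OkQ inn s0 F acc) {I : Ivl} (hI : Nod s0.length F I) {K : Ivl} (hK : K ∈ kids s0.length F I) :
    ∀ L ∈ look s0 acc K, L.Perm (seg s0 K) ∧ L.reverse ∈ look s0 acc K := by
  intro L hL
  obtain ⟨n1, n2⟩ := stepQ_nod h hI
  rcases (kids_mem h.fam n1 n2 hK).1 with h1 | ⟨h1, _⟩
  · rw [stepT_look h1, List.mem_singleton] at hL
    rw [stepT_look h1, hL, stepT_rev h1]
    exact ⟨List.Perm.refl _, List.mem_singleton.2 rfl⟩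
  · exact ha.1 K h1 L hL

theorem look_innQ (h : HypQ P x n Q inn s0 F) {acc : Tab} (ha : OkQ inn s0 F acc) {I : Ivl} (hI : Nod s0.length F I) {K : Ivl} (hK : K ∈ kids s0.length F I) :
    ∀ L ∈ look s0 acc K, inn L := by
  intro L hL
  obtain ⟨n1, n2⟩ := stepQ_nod h hI
  rcases (kids_mem h.fam n1 n2 hK).1 with h1 | ⟨h1, _⟩
  · rw [stepT_look h1, List.mem_singleton] at hL
    refine h.inns L ?_
    rw [hL]
    rcases stepT_seg (s0 := s0) h1 with e | ⟨x, e⟩ <;> rw [e] <;> simp
  · exact ha.2 K h1 L hL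

theorem cands_cmpQ (h : HypQ P x n Q inn s0 F) {acc : Tab} (ha : OkQ inn s0 F acc) {I : Ivl} (hI : Nod s0.length F I)
    (hc : ∀ K ∈ kids s0.length F I, K ∈ F → CmpQ Q (look s0 acc K) (seg s0 K)) :
    ∀ L R : Ord, L.Perm (seg s0 I) → Q (L ++ R) → ∃ L' ∈ candsQ P x s0 F acc I, Q (L' ++ R) := by
  intro L R hL hV
  obtain ⟨n1, n2⟩ := stepQ_nod h hI
  obtain ⟨Ks, hKs, Ls, hLs, rfl⟩ := arr_q h hI hL hV
  obtain ⟨Ls', hLs', hV'⟩ := replQ h.rot (C := look s0 acc) Ls Ks hLs (by
    intro K hK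
    have hK' := hKs.mem_iff.1 hK
    rcases (kids_mem h.fam n1 n2 hK').1 with h1 | ⟨h1, _⟩
    · intro L' R' hL' hVL'
      rw [stepT_look h1]
      exact ⟨L', List.mem_singleton.2 (stepT_perm h1 hL'), hVL'⟩
    · exact hc K hK' h1) R hV
  unfold candsQ
  by_cases h5 : (kids s0.length F I).length ≤ 5
  · rw [if_pos h5]
    exact ⟨Ls'.flatten, small_mem h5 hKs hLs', hV'⟩
  · rw [if_neg h5]
    exact h.rig I hI (by omega) (look s0 acc) (fun K hK => look_kidQ h ha hI hK) (fun K hK => look_innQ h ha hI hK) Ks hKs Ls' hLs' R hV'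

theorem look_rndQ (hF : Lam s0.length F) {acc : Tab} {I : Ivl} (hI : I ∈ F) {L : Ord} :
    L ∈ look s0 (rndQ P x s0 F acc) I ↔ L ∈ nodeQ P x s0 F acc I := by
  have h1 := hF.len I hI
  unfold look
  rw [if_neg (by omega)]
  constructor
  · intro h
    obtain ⟨p, hp, hLp⟩ := List.mem_flatMap.1 h
    obtain ⟨hp1, hp2⟩ := List.mem_filter.1 hp
    unfold rndQ at hp1
    obtain ⟨J, _, rfl⟩ := List.mem_map.1 hp1
    have e : J = I := of_decide_eq_true hp2
    rw [← e]
    exact hLp
  · intro h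
    refine List.mem_flatMap.2 ⟨(I, nodeQ P x s0 F acc I), List.mem_filter.2 ⟨?_, decide_eq_true rfl⟩, h⟩
    unfold rndQ
    exact List.mem_map.2 ⟨I, hI, rfl⟩



theorem tabs_okQ (h : HypQ P x n Q inn s0 F) (k : ℕ) : OkQ inn s0 F (tabsQ P x s0 F k) := by
  have hnd : s0.Nodup := h.base.nodup_iff.mpr List.nodup_range
  cases k with
  | zero =>
    have key : ∀ I ∈ F, ∀ L ∈ look s0 (tabsQ P x s0 F 0) I, False := by
      intro I hI L hL
      have hlen := h.fam.len I hI
      have hne : ¬ (I.2 = I.1 + 1) := by omega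
      simp [tabsQ, look, hne] at hL
    exact ⟨fun I hI L hL => (key I hI L hL).elim, fun I hI L hL => (key I hI L hL).elim⟩
  | succ k =>
    have e : tabsQ P x s0 F (k + 1) = rndQ P x s0 F (tabsQ P x s0 F k) := by
      simp only [tabsQ, Function.iterate_succ_apply']
    rw [e]
    refine ⟨fun I hI L hL => ?_, fun I hI L hL => ?_⟩
    · rw [look_rndQ h.fam hI] at hL ⊢
      exact red_permQ hnd hL
    · rw [look_rndQ h.fam hI] at hL
      exact red_innQ h hL

theorem tabs_cmpQ (h : HypQ P x n Q inn s0 F) (k : ℕ) : ∀ I ∈ F, I.2 - I.1 ≤ k → CmpQ Q (look s0 (tabsQ P x s0 F k) I) (seg s0 I) := by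
  induction k with
  | zero =>
    intro I hI hle
    have hlen := h.fam.len I hI
    omega
  | succ k ih =>
    intro I hI hle
    have e : tabsQ P x s0 F (k + 1) = rndQ P x s0 F (tabsQ P x s0 F k) := by
      simp only [tabsQ, Function.iterate_succ_apply']
    rw [e]
    have hc : CmpQ Q (nodeQ P x s0 F (tabsQ P x s0 F k) I) (seg s0 I) := by
      refine red_cmpQ h hI ?_
      refine cands_cmpQ h (tabs_okQ h k) (Or.inl hI) ?_
      intro K hK hKF
      have := kids_lt h.fam (h.fam.len I hI) (h.fam.hi I hI) hK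
      exact ih K hKF (by omega)
    intro L R hL hV
    obtain ⟨L', hL', hV'⟩ := hc L R hL hV
    exact ⟨L', (look_rndQ h.fam hI).mpr hL', hV'⟩

theorem solveQ_of (h : HypQ P x n Q inn s0 F) {tok : α → Ord → Bool} (htok : ∀ l : Ord, Q l → tok x l = true) {l : Ord} (hl : Q l) :
    solveQ P tok x s0 F = true := by
  have hnd : s0.Nodup := h.base.nodup_iff.mpr List.nodup_range
  have hlp := h.perm hl
  have hlen : s0.length = n := by
    have := h.base.length_eq
    simpa using this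
  have h4 := h.four
  obtain ⟨v0, s1, rfl⟩ : ∃ v s, s0 = v :: s := by
    cases s0 with
    | nil => simp at hlen; omega
    | cons v s => exact ⟨v, s, rfl⟩
  have hseg : seg (v0 :: s1) (1, (v0 :: s1).length) = s1 := by
    simp [seg]
  have hv : v0 ∈ l := hlp.mem_iff.mpr (h.base.mem_iff.mp (List.mem_cons_self ..))
  obtain ⟨A, B, rfl⟩ := List.append_of_mem hv
  have hV1 : Q ((v0 :: B) ++ A) := h.rot hl
  have hV2 : Q ([v0] ++ (B ++ A)) := by simpa using hV1
  have hV3 : Q ((B ++ A) ++ [v0]) := h.rot hV2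
  have hperm : (B ++ A).Perm s1 := by
    have h1 : ([v0] ++ (B ++ A)).Perm (v0 :: s1) := (h.perm hV2).trans h.base.symm
    exact (List.perm_cons v0).mp (by simpa using h1)
  have hcmp := cands_cmpQ h (tabs_okQ h (v0 :: s1).length) (I := (1, (v0 :: s1).length)) (Or.inr rfl) (by
    intro K hK hKF
    have h1 := h.fam.hi K hKF
    exact tabs_cmpQ h (v0 :: s1).length K hKF (by omega))
  rw [hseg] at hcmp
  obtain ⟨L', hL', hV'⟩ := hcmp (B ++ A) [v0] hperm hV3
  have hV4 : Q ([v0] ++ L') := h.rot hV'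
  have hp4 := h.perm hV4
  simp only [solveQ, List.any_eq_true, Bool.and_eq_true]
  refine ⟨L', hL', ?_, ?_⟩
  · have : List.take 1 (v0 :: s1) = [v0] := rfl
    rw [this]
    exact (permB_iff hnd).mpr (hp4.trans h.base.symm)
  · have : List.take 1 (v0 :: s1) = [v0] := rfl
    rw [this]
    exact htok _ hV4


end Pool.Agent.SPT
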