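import Pool.Agent.SPT.Rot7
import Pool.Agent.SPT.Main
import Pool.Agent.SOT.HypE

/-! Project SPT, module HypP: the hypotheses of the dynamic program relative to pins. -/

set_option autoImplicit false

open Set

namespace Pool.Agent.SPT

open Pool.Agent.SOC Pool.Agent.SOD Pool.Agent.SOS Pool.Agent.SOP Pool.Agent.SOE Pool.Agent.SOT Pool.Agent.SPE

variable {M : Mat} {pn : Prs} {s : List (Fin M.length)} {rig : Mat → Ord → List Ivl → List (List Ord) → List Ord} {good : Mat → Ord → Key → Bool}
  {keys : Mat → List Key}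

/-- the hypothesis on the rigid step: the children are in the order of the base order; the result is a concatenation of entries -/
def RigP (rig : Mat → Ord → List Ivl → List (List Ord) → List Ord) (M : Mat) (pn : Prs) (s0 : Ord) (F : List Ivl) : Prop :=
  ∀ I, Nod s0.length F I → 6 ≤ (kids s0.length F I).length → ∀ C : Ivl → List Ord,
    (∀ K ∈ kids s0.length F I, ∀ L ∈ C K, L.Perm (seg s0 K) ∧ L.reverse ∈ C K) →
    ∀ Ls : List Ord, List.Forall₂ (fun L K => L ∈ C K) Ls (kids s0.length F I) →
      ∀ R, VOP M pn (Ls.flatten ++ R) → ∃ L ∈ rig M s0 (kids s0.length F I) ((kids s0.length F I).map C), VO M (L ++ R) ∧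
        ∃ Ls' : List Ord, L = Ls'.flatten ∧ List.Forall₂ (fun L K => L ∈ C K) Ls' (kids s0.length F I)

/-- the hypothesis on the keys -/
def RepP (good : Mat → Ord → Key → Bool) (keys : Mat → List Key) (M : Mat) : Prop :=
  ∀ L R : Ord, EPC (graphOf M) (setW M L) → Nontriv (setW M L) → VO M (L ++ R) →
    ∃ k ∈ keys M, good M L k = true ∧ ∀ L' : Ord, L'.Perm L → good M L' k = true → VO M (L' ++ R)

/-- the parameters -/
def parP (rig : Mat → Ord → List Ivl → List (List Ord) → List Ord) (good : Mat → Ord → Key → Bool) (keys : Mat → List Key) : ParQ (Mat × Prs) :=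
  ⟨fun x s0 Ks Cs => clo (rig x.1 s0 Ks Cs), fun x L k => good x.1 L k && innB x.2 L && decide L.Nodup, fun x => keys x.1⟩

/-- replacing the orders of the children -/
theorem nbi_flat {pn : Prs} {s0 : Ord} {Ks : List Ivl} {x y : ℕ}
    (hK : ∀ K ∈ Ks, (seg s0 K).length ≤ 1 ∨ (x ∈ seg s0 K ↔ y ∈ seg s0 K)) {Ls Ls' : List Ord}
    (h1 : List.Forall₂ (fun L K => L.Perm (seg s0 K)) Ls Ks) :
    List.Forall₂ (fun L K => L.Perm (seg s0 K) ∧ (x ∈ L → y ∈ L → L.idxOf y = L.idxOf x + 1 ∨ L.idxOf x = L.idxOf y + 1)) Ls' Ks →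
    ∀ A B : Ord, (A ++ (Ls.flatten ++ B)).Nodup → x ∈ A ++ (Ls.flatten ++ B) → y ∈ A ++ (Ls.flatten ++ B) →
      Nbi (A ++ (Ls.flatten ++ B)) x y → Nbi (A ++ (Ls'.flatten ++ B)) x y := by
  induction h1 generalizing Ls' with
  | nil =>
    intro h A B _ _ _ hN
    cases h
    exact hN
  | @cons L K Ls Ks hLK h ih =>
    intro h2 A B hn hx hy hN
    cases h2 with
    | @cons L' _ Ls' _ h3 h4 =>
      rw [List.flatten_cons, List.append_assoc] at hn hx hy hN ⊢
      have hp : L'.Perm L := h3.1.trans hLK.symm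
      have k0 := hK K List.mem_cons_self
      have k1 : L.length ≤ 1 ∨ (x ∈ L ↔ y ∈ L) := by
        rw [hLK.length_eq, hLK.mem_iff, hLK.mem_iff]
        exact k0
      have k2 := nbi_step hn hp hx hy k1 h3.2 hN
      have hpp : (A ++ (L' ++ (Ls.flatten ++ B))).Perm (A ++ (L ++ (Ls.flatten ++ B))) :=
        List.Perm.append_left _ (List.Perm.append_right _ hp)
      rw [← List.append_assoc] at k2 ⊢
      refine ih (fun K' hK' => hK K' (List.mem_cons_of_mem _ hK')) h4 (A ++ L') B ?_ ?_ ?_ k2
      · rw [List.append_assoc]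
        exact hpp.nodup_iff.2 hn
      · rw [List.append_assoc]
        exact hpp.mem_iff.2 hx
      · rw [List.append_assoc]
        exact hpp.mem_iff.2 hy

/-- the hypotheses of the dynamic program -/
theorem hypP (hG : PrimeG (graphOf M)) (hc : PinC (graphOf M) (PS M pn)) (hs : EWP (graphOf M) (PS M pn) s) (hp : PinOk M.length pn) (h4 : 4 ≤ M.length)
    (hr : RigP rig M pn (s.map Fin.val) (strLP (M, pn) (s.map Fin.val))) (hk : RepP good keys M) :
    HypQ (parP rig good keys) (M, pn) M.length (VOP M pn) (fun L => L.Nodup ∧ Inn pn L) (s.map Fin.val) (strLP (M, pn) (s.map Fin.val)) where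
  base := hype_base hs.ewo.enum
  four := h4
  fam := strLP_lam _
  rot := fun h => vop_rot hp h
  perm := fun h => vo_perm h.1
  int := fun l hl I hI => int_vop hG hc hs hp hl hI
  rep := by
    intro I hI L R hL hV
    have h1 := strp_str hG hc hs hp hI
    have h2 : setW M L = setW M (seg (s.map Fin.val) I) := by
      ext x
      exact hL.mem_iff
    have hnd : (L ++ R).Nodup := (vo_perm hV.1).nodup_iff.2 List.nodup_range
    have hRne : R ≠ [] := by
      rintro rfl
      obtain ⟨-, y, hy, -⟩ := h1.nt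
      rw [← h2] at hy
      have h3 := (vo_perm hV.1).mem_iff.2 (List.mem_range.2 y.2)
      rw [List.append_nil] at h3
      exact hy h3
    obtain ⟨k, hk1, hk2, hk3⟩ := hk L R (by rw [h2]; exact h1.epp.epc) (by rw [h2]; exact h1.nt) hV.1
    have hin := inn_of_vop hV hRne
    refine ⟨k, hk1, ?_, ?_⟩
    · show (good M L k && innB pn L && decide L.Nodup) = true
      rw [hk2, innB_iff.2 hin, decide_eq_true (List.nodup_append.1 hnd).1]
      rfl
    · intro L' hL' hg
      have hg' : (good M L' k && innB pn L' && decide L'.Nodup) = true := hg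
      rw [Bool.and_eq_true, Bool.and_eq_true] at hg'
      refine ⟨hk3 L' hL' hg'.1.1, fun p hpm => ?_⟩
      have hin' := innB_iff.1 hg'.1.2
      have hm := vop_mem hp hV.1 hpm
      have h5 : p.1 ∈ L ↔ p.2 ∈ L := by
        obtain ⟨b1, b2, b3⟩ := hp p hpm
        have h6 := (nc_pair h1.nt).1 (h1.epp.pin _ ⟨⟨p.1, b1⟩, ⟨p.2, b2⟩, hpm, fun e => b3 (congrArg Fin.val e), rfl⟩)
        rw [← h2] at h6
        exact h6
      have h7 := nbi_step (A := []) (L := L) (L' := L') (B := R) (by simpa using hnd) hL' (by simpa using hm.1) (by simpa using hm.2)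
        (Or.inr h5) (fun q1 q2 => hin' p hpm q1 q2) (by simpa using hV.2 p hpm)
      simpa using h7
  inn1 := by
    intro L k hg
    have hg' : (good M L k && innB pn L && decide L.Nodup) = true := hg
    rw [Bool.and_eq_true, Bool.and_eq_true, decide_eq_true_eq] at hg'
    exact ⟨hg'.2, innB_iff.1 hg'.1.2⟩
  innr := fun L h => ⟨List.nodup_reverse.2 h.1, inn_rev h.1 h.2⟩
  inns := by
    intro L hL
    match L, hL with
    | [], _ => exact ⟨List.nodup_nil, fun p _ h => absurd h List.not_mem_nil⟩
    | [a], _ =>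
      refine ⟨List.nodup_singleton a, fun p hpm q1 q2 => ?_⟩
      rw [List.mem_singleton] at q1 q2
      exact absurd (q1.trans q2.symm) (hp p hpm).2.2
  rig := by
    intro I hI h6 C hC hCi Ks hKs Ls hLs R hV
    have e : (s.map Fin.val).length = s.length := List.length_map _
    have h1 : List.Forall₂ (fun L K => L.Perm (seg (s.map Fin.val) K)) Ls Ks :=
      hype_f2 hLs (fun a b hb hab => (hC b (hKs.mem_iff.1 hb) a hab).1)
    have h2 := rot7P hG hc hs hp h4 (I := I) (by rw [← e]; exact hI) (by rw [← e]; exact h6) (Ks := Ks)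
      (by rw [← e]; exact hKs) h1 hV
    rw [← e] at h2
    have hIb : I.1 < I.2 ∧ I.2 ≤ (s.map Fin.val).length := by
      have hF : Lam (s.map Fin.val).length (strLP (M, pn) (s.map Fin.val)) := strLP_lam _
      have hl : s.length = M.length := prt_len hs.ewo.enum
      rcases hI with h | h
      · exact ⟨by have := hF.len I h; omega, hF.hi I h⟩
      · rw [h]
        refine ⟨?_, le_rfl⟩
        show 1 < (s.map Fin.val).length
        omega
    -- the result satisfies the pins
    have fin : ∀ (Ls : List Ord) (R : Ord), List.Forall₂ (fun L K => L ∈ C K) Ls (kids (s.map Fin.val).length (strLP (M, pn) (s.map Fin.val)) I) →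
        VOP M pn (Ls.flatten ++ R) → ∃ L ∈ rig M (s.map Fin.val) (kids (s.map Fin.val).length (strLP (M, pn) (s.map Fin.val)) I)
          ((kids (s.map Fin.val).length (strLP (M, pn) (s.map Fin.val)) I).map C), VOP M pn (L ++ R) := by
      intro Ls R hLs hV
      obtain ⟨L, h3, h5, Ls', rfl, h7⟩ := hr I hI h6 C hC Ls hLs R hV
      refine ⟨_, h3, h5, fun p hpm => ?_⟩
      have hm := vop_mem hp hV.1 hpm
      have hnd : (Ls.flatten ++ R).Nodup := (vo_perm hV.1).nodup_iff.2 List.nodup_range
      have h8 := nbi_flat (pn := pn) (s0 := s.map Fin.val) (x := p.1) (y := p.2)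
        (Ks := kids (s.map Fin.val).length (strLP (M, pn) (s.map Fin.val)) I) (Ls := Ls) (Ls' := Ls')
        (by
          intro K hK
          obtain ⟨h9, -, -, -⟩ := kids_mem (strLP_lam _) hIb.1 hIb.2 hK
          rcases h9 with h9 | ⟨h9, -⟩
          · left
            unfold seg
            rw [List.length_take, h9]
            omega
          · right
            have h10 := strp_str hG hc hs hp h9
            obtain ⟨b1, b2, b3⟩ := hp p hpm
            exact (nc_pair h10.nt).1 (h10.epp.pin _ ⟨⟨p.1, b1⟩, ⟨p.2, b2⟩, hpm, fun e => b3 (congrArg Fin.val e), rfl⟩))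
        (hype_f2 hLs (fun a b hb hab => (hC b hb a hab).1))
        (hype_f2 h7 (fun a b hb hab => ⟨(hC b hb a hab).1, fun q1 q2 => (hCi b hb a hab).2 p hpm q1 q2⟩))
        [] R (by simpa using hnd) (by simpa using hm.1) (by simpa using hm.2) (by simpa using hV.2 p hpm)
      simpa using h8
    rcases h2 with h2 | h2
    · rw [h2] at hLs
      obtain ⟨L, h3, h4⟩ := fin Ls R hLs hV
      exact ⟨L, List.mem_append_left _ h3, h4⟩
    · rw [h2] at hLs
      have h3 : VOP M pn (Ls.flatten.reverse ++ R.reverse) := by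
        refine vop_rot hp ?_
        rw [← List.reverse_append]
        exact vop_rev hp hV
      rw [List.reverse_flatten] at h3
      have h4 : List.Forall₂ (fun L K => L ∈ C K) (Ls.map List.reverse)
          (kids (s.map Fin.val).length (strLP (M, pn) (s.map Fin.val)) I).reverse :=
        hype_f2m hLs (fun a b hb hab => (hC b (List.mem_reverse.1 hb) a hab).2)
      have h5 : List.Forall₂ (fun L K => L ∈ C K) (Ls.map List.reverse).reverse
          (kids (s.map Fin.val).length (strLP (M, pn) (s.map Fin.val)) I) := by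
        have h6 := List.forall₂_reverse_iff.2 h4
        rwa [List.reverse_reverse] at h6
      obtain ⟨L, h6, h7⟩ := fin _ R.reverse h5 h3
      refine ⟨L.reverse, List.mem_append_right _ (List.mem_map.2 ⟨L, h6, rfl⟩), ?_⟩
      refine vop_rot hp ?_
      have h8 := vop_rev hp h7
      rwa [List.reverse_append, List.reverse_reverse] at h8

end Pool.Agent.SPT
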