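import Pool.Agent.SPE.EPoly
import Pool.Agent.SPT.Defs

/-! Project SPT, module Nbi: cyclic neighbours in a list, and the orders in which the pins are neighbours. -/

set_option autoImplicit false

namespace Pool.Agent.SPT

open Pool.Agent.SOC Pool.Agent.SOD Pool.Agent.SOS Pool.Agent.SOP Pool.Agent.SOT Pool.Agent.SOE Pool.Agent.SPE

/-- pins -/
abbrev Prs := List (ℕ × ℕ)

/-- `x` and `y` are neighbours in the cyclic order `l` -/
def Nbi (l : Ord) (x y : ℕ) : Prop :=
  l.idxOf y = l.idxOf x + 1 ∨ l.idxOf x = l.idxOf y + 1 ∨ (l.idxOf x = 0 ∧ l.idxOf y + 1 = l.length) ∨ (l.idxOf y = 0 ∧ l.idxOf x + 1 = l.length)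

/-- SOC order in which the pins are neighbours -/
def VOP (M : Mat) (pn : Prs) (l : Ord) : Prop := VO M l ∧ ∀ p ∈ pn, Nbi l p.1 p.2

/-- the pins are pairs of different vertices -/
def PinOk (n : ℕ) (pn : Prs) : Prop := ∀ p ∈ pn, p.1 < n ∧ p.2 < n ∧ p.1 ≠ p.2

/-- pins with both ends in the list are consecutive -/
def Inn (pn : Prs) (L : Ord) : Prop := ∀ p ∈ pn, p.1 ∈ L → p.2 ∈ L → L.idxOf p.2 = L.idxOf p.1 + 1 ∨ L.idxOf p.1 = L.idxOf p.2 + 1

/-- the test for `Inn` -/
def innB (pn : Prs) (L : Ord) : Bool :=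
  pn.all fun p => !(decide (p.1 ∈ L)) || (!(decide (p.2 ∈ L)) || (decide (L.idxOf p.2 = L.idxOf p.1 + 1) || decide (L.idxOf p.1 = L.idxOf p.2 + 1)))

theorem innB_iff {pn : Prs} {L : Ord} : innB pn L = true ↔ Inn pn L := by
  unfold innB Inn
  rw [List.all_eq_true]
  refine forall₂_congr fun p _ => ?_
  by_cases h1 : p.1 ∈ L <;> by_cases h2 : p.2 ∈ L <;> simp [h1, h2]

theorem idx_rev : ∀ {l : Ord} (_ : l.Nodup) {x : ℕ} (_ : x ∈ l), l.reverse.idxOf x + l.idxOf x + 1 = l.length := by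
  intro l hl x hx
  have h1 := List.idxOf_lt_length_of_mem hx
  have h2 : l.length - 1 - l.idxOf x < l.reverse.length := by
    rw [List.length_reverse]
    omega
  have h3 : l.reverse[l.length - 1 - l.idxOf x] = x := by
    rw [List.getElem_reverse]
    have e : l.length - 1 - (l.length - 1 - l.idxOf x) = l.idxOf x := by omega
    simp only [e]
    exact List.getElem_idxOf h1
  have h4 := (List.nodup_reverse.2 hl).idxOf_getElem _ h2
  rw [h3] at h4
  rw [h4]
  omega

theorem nbi_rev {l : Ord} (hl : l.Nodup) {x y : ℕ} (hx : x ∈ l) (hy : y ∈ l) (h : Nbi l x y) : Nbi l.reverse x y := by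
  have h1 := idx_rev hl hx
  have h2 := idx_rev hl hy
  unfold Nbi at h ⊢
  rw [List.length_reverse]
  omega

theorem nbi_rot {A B : Ord} (hl : (A ++ B).Nodup) {x y : ℕ} (hx : x ∈ A ++ B) (hy : y ∈ A ++ B) (h : Nbi (A ++ B) x y) : Nbi (B ++ A) x y := by
  have hd : ∀ z ∈ A, z ∉ B := fun z h1 h2 => (List.nodup_append.1 hl).2.2 z h1 z h2 rfl
  have key : ∀ z, z ∈ A ++ B → (z ∈ A ∧ (A ++ B).idxOf z = A.idxOf z ∧ (B ++ A).idxOf z = B.length + A.idxOf z ∧ A.idxOf z < A.length) ∨
      (z ∈ B ∧ (A ++ B).idxOf z = A.length + B.idxOf z ∧ (B ++ A).idxOf z = B.idxOf z ∧ B.idxOf z < B.length) := by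
    intro z hz
    by_cases hA : z ∈ A
    · left
      refine ⟨hA, List.idxOf_append_of_mem hA, ?_, List.idxOf_lt_length_of_mem hA⟩
      rw [List.idxOf_append_of_notMem (hd z hA)]
    · right
      have hB : z ∈ B := (List.mem_append.1 hz).resolve_left hA
      refine ⟨hB, ?_, List.idxOf_append_of_mem hB, List.idxOf_lt_length_of_mem hB⟩
      rw [List.idxOf_append_of_notMem hA]
  unfold Nbi at h ⊢
  rw [List.length_append] at h ⊢
  rcases key x hx with ⟨-, a1, a2, a3⟩ | ⟨-, a1, a2, a3⟩ <;> rcases key y hy with ⟨-, b1, b2, b3⟩ | ⟨-, b1, b2, b3⟩ <;> omega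

theorem vop_mem {M : Mat} {pn : Prs} {l : Ord} (hp : PinOk M.length pn) (h : VO M l) {p : ℕ × ℕ} (hm : p ∈ pn) : p.1 ∈ l ∧ p.2 ∈ l := by
  have h1 := vo_perm h
  exact ⟨h1.mem_iff.2 (List.mem_range.2 (hp p hm).1), h1.mem_iff.2 (List.mem_range.2 (hp p hm).2.1)⟩

theorem vop_rot {M : Mat} {pn : Prs} (hp : PinOk M.length pn) {A B : Ord} (h : VOP M pn (A ++ B)) : VOP M pn (B ++ A) := by
  refine ⟨vo_rot h.1, fun p hm => ?_⟩
  have h1 := vop_mem hp h.1 hm
  exact nbi_rot ((vo_perm h.1).nodup_iff.2 List.nodup_range) h1.1 h1.2 (h.2 p hm)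

theorem vop_rev {M : Mat} {pn : Prs} (hp : PinOk M.length pn) {l : Ord} (h : VOP M pn l) : VOP M pn l.reverse := by
  refine ⟨vo_rev h.1, fun p hm => ?_⟩
  have h1 := vop_mem hp h.1 hm
  exact nbi_rev ((vo_perm h.1).nodup_iff.2 List.nodup_range) h1.1 h1.2 (h.2 p hm)

theorem inn_rev {pn : Prs} {L : Ord} (hn : L.Nodup) (h : Inn pn L) : Inn pn L.reverse := by
  intro p hp h1 h2
  rw [List.mem_reverse] at h1 h2
  have k1 := idx_rev hn h1
  have k2 := idx_rev hn h2
  have := h p hp h1 h2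
  omega

/-- the entry of a table -/
theorem inn_of_vop {M : Mat} {pn : Prs} {L R : Ord} (h : VOP M pn (L ++ R)) (hR : R ≠ []) : Inn pn L := by
  intro p hp h1 h2
  have k1 := List.idxOf_append_of_mem (l₂ := R) h1
  have k2 := List.idxOf_append_of_mem (l₂ := R) h2
  have k3 := List.idxOf_lt_length_of_mem h1
  have k4 := List.idxOf_lt_length_of_mem h2
  have k5 : 0 < R.length := List.length_pos_iff.2 hR
  have := h.2 p hp
  unfold Nbi at this
  rw [List.length_append, k1, k2] at this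
  omega

/-- replacing a part of the order -/
theorem nbi_step {A L L' B : Ord} (hn : (A ++ (L ++ B)).Nodup) (hL : L'.Perm L) {x y : ℕ} (hx : x ∈ A ++ (L ++ B)) (hy : y ∈ A ++ (L ++ B))
    (h1 : L.length ≤ 1 ∨ (x ∈ L ↔ y ∈ L))
    (h2 : x ∈ L' → y ∈ L' → L'.idxOf y = L'.idxOf x + 1 ∨ L'.idxOf x = L'.idxOf y + 1) (h : Nbi (A ++ (L ++ B)) x y) :
    Nbi (A ++ (L' ++ B)) x y := by
  by_cases hl1 : L.length ≤ 1
  · have e : L' = L := by
      match L, hl1 with
      | [], _ => exact hL.eq_nil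
      | [a], _ => exact List.perm_singleton.1 hL
    rw [e]
    exact h
  have h1 := h1.resolve_left hl1
  have hd : ∀ z ∈ A, z ∉ L ++ B := fun z k1 k2 => (List.nodup_append.1 hn).2.2 z k1 z k2 rfl
  have hlen := hL.length_eq
  by_cases hxL : x ∈ L
  · have hyL := h1.1 hxL
    have hx' := hL.mem_iff.2 hxL
    have hy' := hL.mem_iff.2 hyL
    have xA : x ∉ A := fun k => hd x k (List.mem_append_left _ hxL)
    have yA : y ∉ A := fun k => hd y k (List.mem_append_left _ hyL)
    have e1 : (A ++ (L' ++ B)).idxOf x = A.length + L'.idxOf x := by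
      rw [List.idxOf_append_of_notMem xA, List.idxOf_append_of_mem hx']
    have e2 : (A ++ (L' ++ B)).idxOf y = A.length + L'.idxOf y := by
      rw [List.idxOf_append_of_notMem yA, List.idxOf_append_of_mem hy']
    have := h2 hx' hy'
    unfold Nbi
    rw [e1, e2]
    omega
  · have hyL : y ∉ L := fun k => hxL (h1.2 k)
    have key : ∀ z, z ∉ L → (A ++ (L' ++ B)).idxOf z = (A ++ (L ++ B)).idxOf z := by
      intro z hz
      have hz' : z ∉ L' := fun k => hz (hL.mem_iff.1 k)
      by_cases hA : z ∈ A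
      · rw [List.idxOf_append_of_mem hA, List.idxOf_append_of_mem hA]
      · rw [List.idxOf_append_of_notMem hA, List.idxOf_append_of_notMem hA, List.idxOf_append_of_notMem hz,
          List.idxOf_append_of_notMem hz', hlen]
    unfold Nbi at h ⊢
    rw [key x hxL, key y hyL]
    have e : (A ++ (L' ++ B)).length = (A ++ (L ++ B)).length := by
      simp only [List.length_append, hlen]
    rw [e]
    exact h

theorem idxOf_val {n : ℕ} (s : List (Fin n)) (v : Fin n) : (s.map Fin.val).idxOf v.val = s.idxOf v := by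
  induction s with
  | nil => rfl
  | cons a s ih =>
    rw [List.map_cons]
    by_cases h : a = v
    · subst h
      rw [List.idxOf_cons_self, List.idxOf_cons_self]
    · have h' : a.val ≠ v.val := fun e => h (Fin.ext e)
      rw [List.idxOf_cons_ne _ h', List.idxOf_cons_ne _ h, ih]

/-- neighbours form an interval -/
theorem ci_nbi {n : ℕ} {s : List (Fin n)} (hs : IsEnum s) {z a : Fin n} (h : Nbi (s.map Fin.val) z.val a.val) : CI s {z, a} := by
  unfold Nbi at h
  rw [idxOf_val, idxOf_val, List.length_map] at h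
  intro u hu u' hu' y hy y' hy'
  have y1 : z ≠ y := fun e => hy (Or.inl e.symm)
  have y2 : a ≠ y := fun e => hy (Or.inr e.symm)
  have y3 : z ≠ y' := fun e => hy' (Or.inl e.symm)
  have y4 : a ≠ y' := fun e => hy' (Or.inr e.symm)
  have key : sep (ordFn s) z a y y' = 0 := by
    rw [← not_cross_iff hs y1 y3 y2 y4]
    have n1 := idx_ne hs y1
    have n2 := idx_ne hs y2
    have n3 := idx_ne hs y3
    have n4 := idx_ne hs y4
    have l1 := List.idxOf_lt_length_of_mem (hs.2 y)
    have l2 := List.idxOf_lt_length_of_mem (hs.2 y')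
    unfold Cross SOC.Btw
    omega
  rcases hu with rfl | rfl <;> rcases hu' with rfl | rfl
  · exact sep_self_left _ _ _ _
  · exact key
  · rw [sep_swap_left]
    exact key
  · exact sep_self_left _ _ _ _

/-- the pins are intervals -/
theorem vop_ci {M : Mat} {pn : Prs} {s : List (Fin M.length)} (hs : IsEnum s) (h : ∀ p ∈ pn, Nbi (s.map Fin.val) p.1 p.2) :
    ∀ S ∈ PS M pn, CI s S := by
  rintro S ⟨z, a, h1, -, rfl⟩
  exact ci_nbi hs (h _ h1)

end Pool.Agent.SPT
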