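import Pool.Agent.SPT.Str
import Pool.Agent.SOT.PrtT

/-! Project SPT, module Prt: the parts at an interval of the family form a node. -/

set_option autoImplicit false

open Set

namespace Pool.Agent.SPT

open Pool.Agent.SOC Pool.Agent.SOD Pool.Agent.SOS Pool.Agent.SOP Pool.Agent.SOE Pool.Agent.SOT Pool.Agent.SPE

variable {M : Mat} {pn : Prs} {s : List (Fin M.length)}

theorem prt_nodeP (hG : PrimeG (graphOf M)) (hc : PinC (graphOf M) (PS M pn)) (hs : EWP (graphOf M) (PS M pn) s) (hp : PinOk M.length pn) {I : Ivl}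
    (h4 : 4 ≤ M.length) (hI : Nod s.length (strLP (M, pn) (s.map Fin.val)) I) : NodeP (graphOf M) (PS M pn) (prt M (s.map Fin.val) (strLP (M, pn) (s.map Fin.val)) I) := by
  have hlen : s.length = M.length := prt_len hs.ewo.enum
  have hnod : (s.map Fin.val).Nodup := prt_nod hs.ewo.enum
  have hF : Lam (s.map Fin.val).length (strLP (M, pn) (s.map Fin.val)) := strLP_lam _
  have hl0 : (s.map Fin.val).length = s.length := List.length_map _
  obtain ⟨v₀, t, e⟩ : ∃ v₀ t, s = v₀ :: t := by
    cases hst : s with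
    | nil => rw [hst] at hlen; simp at hlen; omega
    | cons a b => exact ⟨a, b, rfl⟩
  have hz : (s.map Fin.val)[0]? = some v₀.val := by rw [e]; rfl
  have hI1 : 1 ≤ I.1 ∧ I.1 < I.2 ∧ I.2 ≤ (s.map Fin.val).length := by
    rcases hI with h | h
    · have a1 := hF.lo I h
      have a2 := hF.len I h
      have a3 := hF.hi I h
      exact ⟨a1, by omega, a3⟩
    · subst h
      exact ⟨le_refl _, by show 1 < s.length; omega, by rw [hl0]⟩
  obtain ⟨hI1, hI2, hI3⟩ := hI1
  have hmem : ∀ v : Fin M.length, ∃ i, i < s.length ∧ (s.map Fin.val)[i]? = some v.val := by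
    intro v
    have h : v.val ∈ s.map Fin.val := List.mem_map_of_mem (prt_mem hs.ewo.enum v)
    obtain ⟨i, hi⟩ := List.mem_iff_getElem?.1 h
    obtain ⟨hi', _⟩ := List.getElem?_eq_some_iff.1 hi
    exact ⟨i, by omega, hi⟩
  have h0I : v₀.val ∉ seg (s.map Fin.val) I := by
    intro h
    obtain ⟨i, a1, a2, a3⟩ := prt_seg.1 h
    have := prt_pos hnod a3 hz
    omega
  have hout := fun (u : Fin M.length) => prt_out (M := M) (s0 := s.map Fin.val) hF hI2 hI3 (u := u) (v := v₀) h0I
  have hcore : ∀ X, StrP (graphOf M) (PS M pn) X → v₀ ∉ X →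
      (∃ v, ∀ x ∈ X, prt M (s.map Fin.val) (strLP (M, pn) (s.map Fin.val)) I x = prt M (s.map Fin.val) (strLP (M, pn) (s.map Fin.val)) I v) ∨
      (∃ v, ∀ x, x ∉ X → prt M (s.map Fin.val) (strLP (M, pn) (s.map Fin.val)) I x = prt M (s.map Fin.val) (strLP (M, pn) (s.map Fin.val)) I v) := by
    intro X hX h0
    obtain ⟨J, hJ, rfl⟩ := strp_ex hG hc hs hp e hX h0
    have b1 := hF.lo J hJ
    have b2 := hF.len J hJ
    have b3 := hF.hi J hJ
    have hcase : (I.2 ≤ J.1 ∨ J.2 ≤ I.1) ∨ (J.1 ≤ I.1 ∧ I.2 ≤ J.2) ∨ (J ≠ I ∧ I.1 ≤ J.1 ∧ J.2 ≤ I.2) := by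
      by_cases hJI : J = I
      · right; left
        subst hJI
        exact ⟨le_refl _, le_refl _⟩
      rcases hI with h | h
      · have hl := hF.lam I h J hJ
        unfold ovl at hl
        simp only [Bool.or_eq_false_iff, Bool.and_eq_false_iff, decide_eq_false_iff_not] at hl
        have hl' : (I.2 ≤ J.1 ∨ J.2 ≤ I.1) ∨ (J.1 ≤ I.1 ∧ I.2 ≤ J.2) ∨ (I.1 ≤ J.1 ∧ J.2 ≤ I.2) := by omega
        rcases hl' with h1 | h1 | h1
        · exact Or.inl h1
        · exact Or.inr (Or.inl h1)
        · exact Or.inr (Or.inr ⟨hJI, h1⟩)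
      · right; right
        refine ⟨hJI, ?_, ?_⟩
        · rw [h]; exact b1
        · rw [h]; show J.2 ≤ s.length; omega
    rcases hcase with h | ⟨c1, c2⟩ | ⟨c0, c1, c2⟩
    · left
      refine ⟨v₀, fun x hx => (hout x).2 ?_⟩
      intro hx'
      obtain ⟨i, a1, a2, a3⟩ := prt_seg.1 (show x.val ∈ seg (s.map Fin.val) J from hx)
      obtain ⟨j, d1, d2, d3⟩ := prt_seg.1 hx'
      have := prt_pos hnod a3 d3
      omega
    · right
      refine ⟨v₀, fun x hx => (hout x).2 ?_⟩
      intro hx'
      apply hx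
      obtain ⟨j, d1, d2, d3⟩ := prt_seg.1 hx'
      exact prt_seg.2 ⟨j, by omega, by omega, d3⟩
    · left
      obtain ⟨K, hK, k1, k2⟩ := kids_max hF hI2 hI3 hJ c0 c1 c2
      have hJp : J.1 < s.length := by omega
      refine ⟨s[J.1], fun x hx => (prt_in hnod hK (v := s[J.1]) ?_).2 ?_⟩
      · refine prt_seg.2 ⟨J.1, k1, by omega, ?_⟩
        rw [List.getElem?_map, List.getElem?_eq_getElem hJp]
        rfl
      · obtain ⟨i, a1, a2, a3⟩ := prt_seg.1 (show x.val ∈ seg (s.map Fin.val) J from hx)
        exact prt_seg.2 ⟨i, by omega, by omega, a3⟩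
  refine ⟨?_, ?_⟩
  · intro v
    by_cases hv : v.val ∈ seg (s.map Fin.val) I
    · have hv' := hv
      rw [← kids_flat (s.map Fin.val) hF hI2 hI3] at hv'
      simp only [List.mem_flatten, List.mem_map] at hv'
      obtain ⟨_, ⟨K, hK, rfl⟩, hvK⟩ := hv'
      obtain ⟨hk, hk1, hk2, hk3⟩ := kids_mem hF hI2 hI3 hK
      rcases hk with hk | ⟨hk, -⟩
      · left
        intro u hu
        have hu' := (prt_in hnod hK hvK).1 hu
        obtain ⟨i, a1, a2, a3⟩ := prt_seg.1 hvK
        obtain ⟨j, d1, d2, d3⟩ := prt_seg.1 hu'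
        have e1 : i = j := by omega
        subst e1
        rw [a3] at d3
        exact Fin.ext (Option.some.inj d3).symm
      · right
        have e1 : {u | prt M (s.map Fin.val) (strLP (M, pn) (s.map Fin.val)) I u = prt M (s.map Fin.val) (strLP (M, pn) (s.map Fin.val)) I v} =
            setW M (seg (s.map Fin.val) K) := by
          ext u
          exact prt_in hnod hK hvK
        rw [e1]
        exact strp_str hG hc hs hp hk
    · have e1 : ∀ u, prt M (s.map Fin.val) (strLP (M, pn) (s.map Fin.val)) I u = prt M (s.map Fin.val) (strLP (M, pn) (s.map Fin.val)) I v ↔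
          u.val ∉ seg (s.map Fin.val) I := fun u => prt_out hF hI2 hI3 hv
      rcases hI with h | h
      · right
        have e2 : {u | prt M (s.map Fin.val) (strLP (M, pn) (s.map Fin.val)) I u = prt M (s.map Fin.val) (strLP (M, pn) (s.map Fin.val)) I v} =
            (setW M (seg (s.map Fin.val) I))ᶜ := by
          ext u
          exact e1 u
        rw [e2]
        exact (strp_str hG hc hs hp h).compl
      · left
        intro u hu
        have hu' := (e1 u).1 hu
        have hz' : ∀ w : Fin M.length, w.val ∉ seg (s.map Fin.val) I → w = v₀ := by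
          intro w hw
          obtain ⟨i, hi, hi'⟩ := hmem w
          have : i = 0 := by
            by_contra hne
            apply hw
            refine prt_seg.2 ⟨i, ?_, ?_, hi'⟩
            · rw [h]; show 1 ≤ i; omega
            · rw [h]; show i < s.length; omega
          subst this
          rw [hz] at hi'
          exact Fin.ext (Option.some.inj hi').symm
        rw [hz' u hu', hz' v hv]
  · intro X hX
    by_cases h0 : v₀ ∈ X
    · rcases hcore Xᶜ hX.compl (fun h => h h0) with ⟨v, hv⟩ | ⟨v, hv⟩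
      · right
        exact ⟨v, fun x hx => hv x hx⟩
      · left
        exact ⟨v, fun x hx => hv x (fun h => h hx)⟩
    · exact hcore X hX h0

end Pool.Agent.SPT
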