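import Pool.Agent.SPT.Defs

/-! Project SPT, module Step: one step. -/

set_option autoImplicit false

namespace Pool.Agent.SPT

open Pool.Agent.SOC Pool.Agent.SOD Pool.Agent.SOS Pool.Agent.SOT

variable {α : Type} {P : ParQ α} {x : α} {n : ℕ} {Q inn : Ord → Prop} {s0 : Ord} {F : List Ivl}

theorem arr_q (h : HypQ P x n Q inn s0 F) {I : Ivl} (hI : Nod s0.length F I) {L R : Ord} (hL : L.Perm (seg s0 I)) (hV : Q (L ++ R)) :
    ∃ Ks : List Ivl, Ks.Perm (kids s0.length F I) ∧ ∃ Ls : List Ord, List.Forall₂ (fun L' K => L'.Perm (seg s0 K)) Ls Ks ∧ L = Ls.flatten := by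
  have hlen0 : s0.length = n := by rw [h.base.length_eq, List.length_range]
  have hfour := h.four
  have hb : 1 ≤ I.1 ∧ I.1 < I.2 ∧ I.2 ≤ s0.length := by
    rcases hI with hI | hI
    · have := h.fam.lo I hI
      have h2 := h.fam.len I hI
      have h3 := h.fam.hi I hI
      omega
    · subst hI
      refine ⟨le_refl _, ?_, le_refl _⟩
      show 1 < s0.length
      omega
  obtain ⟨hb1, hb2, hb3⟩ := hb
  have hs0 : s0.Nodup := h.base.nodup_iff.2 List.nodup_range
  have hpV := h.perm hV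
  have hn : (L ++ R).Nodup := hpV.nodup_iff.2 List.nodup_range
  have hR : R ≠ [] := by
    rintro rfl
    have e1 := hpV.length_eq
    rw [List.append_nil, List.length_range, hL.length_eq, ArrV_len s0 I hb3] at e1
    omega
  have hfl := kids_flat s0 h.fam hb2 hb3
  have hsegn : (seg s0 I).Nodup := by
    unfold seg
    exact hs0.sublist ((List.take_sublist _ _).trans (List.drop_sublist _ _))
  have hk := fun K (hK : K ∈ kids s0.length F I) => kids_mem h.fam hb2 hb3 hK
  have hne : ∀ K ∈ kids s0.length F I, seg s0 K ≠ [] := by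
    intro K hK hnil
    obtain ⟨_, h1, h2, h3⟩ := hk K hK
    have := ArrV_len s0 K (by omega)
    rw [hnil, List.length_nil] at this
    omega
  have hmem : ∀ x, x ∈ L ↔ ∃ S ∈ (kids s0.length F I).map (seg s0), x ∈ S := by
    intro x
    rw [hL.mem_iff, ← hfl, List.mem_flatten]
  have hpw : ((kids s0.length F I).map (seg s0)).Pairwise List.Disjoint := by
    have := hsegn
    rw [← hfl, List.nodup_flatten] at this
    exact this.2
  have hnd : ((kids s0.length F I).map (seg s0)).Nodup := by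
    refine List.Pairwise.imp_of_mem ?_ hpw
    rintro S S' hS hS' hd rfl
    rw [List.mem_map] at hS
    obtain ⟨K, hK, rfl⟩ := hS
    obtain ⟨x, hx⟩ := List.exists_mem_of_ne_nil _ (hne K hK)
    exact hd hx hx
  obtain ⟨Ks', hp, Ls, hf, hLs⟩ := arr ((kids s0.length F I).map (seg s0)) L (List.nodup_append.1 hn).1 hnd
    (by
      intro S hS
      rw [List.mem_map] at hS
      obtain ⟨K, hK, rfl⟩ := hS
      exact hne K hK)
    hmem
    (by
      intro S hS S' hS' hne' x hx hx'
      have : Std.Symm (List.Disjoint (α := ℕ)) := ⟨fun a b hab => hab.symm⟩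
      exact List.Pairwise.forall hpw hS hS' hne' hx hx')
    (by
      intro S hS
      have hSL : ∀ x ∈ S, x ∈ L := fun x hx => (hmem x).2 ⟨S, hS, hx⟩
      rw [List.mem_map] at hS
      obtain ⟨K, hK, rfl⟩ := hS
      obtain ⟨h0, h1, h2, h3⟩ := hk K hK
      rcases h0 with h0 | h0
      · have hl := ArrV_len s0 K (by omega)
        have hl1 : (seg s0 K).length = 1 := by rw [hl]; omega
        obtain ⟨x, hx⟩ := List.length_eq_one_iff.1 hl1
        rw [hx] at hSL ⊢
        obtain ⟨u, v, huv⟩ := List.append_of_mem (hSL x (by simp))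
        exact ⟨u, [x], v, by simpa using huv, List.Perm.refl _⟩
      · exact cyc_seg hn hR hSL (h.int _ hV K h0.1))
  obtain ⟨Ks, hp2, hm2⟩ := ArrV_lift (seg s0) hp.symm (kids s0.length F I) rfl
  refine ⟨Ks, hp2, Ls, ?_, hLs⟩
  rw [← hm2, List.forall₂_map_right_iff] at hf
  exact hf



theorem replQ (hrot : ∀ {A B : Ord}, Q (A ++ B) → Q (B ++ A)) {C : Ivl → List Ord} : ∀ (Ls : List Ord) (Ks : List Ivl), List.Forall₂ (fun L K => L.Perm (seg s0 K)) Ls Ks →
    (∀ K ∈ Ks, CmpQ Q (C K) (seg s0 K)) → ∀ R : Ord, Q (Ls.flatten ++ R) →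
    ∃ Ls' : List Ord, List.Forall₂ (fun L K => L ∈ C K) Ls' Ks ∧ Q (Ls'.flatten ++ R) := by
  intro Ls Ks hF
  induction hF with
  | nil =>
    intro _ R hR
    exact ⟨[], List.Forall₂.nil, hR⟩
  | @cons L K Ls Ks hLK hrest ih =>
    intro hC R hR
    have h1 : Q (L ++ (Ls.flatten ++ R)) := by
      rw [List.flatten_cons, List.append_assoc] at hR
      exact hR
    obtain ⟨L', hL', h2⟩ := hC K List.mem_cons_self L (Ls.flatten ++ R) hLK h1
    have h3 : Q (Ls.flatten ++ (R ++ L')) := by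
      rw [← List.append_assoc]
      exact hrot h2
    obtain ⟨Ls', hF', h4⟩ := ih (fun K hK => hC K (List.mem_cons_of_mem _ hK)) (R ++ L') h3
    refine ⟨L' :: Ls', List.Forall₂.cons hL' hF', ?_⟩
    rw [List.flatten_cons, List.append_assoc]
    rw [← List.append_assoc] at h4
    exact hrot h4



theorem red_cmpQ (h : HypQ P x n Q inn s0 F) {I : Ivl} (hI : I ∈ F) {C : List Ord}
    (hC : ∀ L R : Ord, L.Perm (seg s0 I) → Q (L ++ R) → ∃ L' ∈ C, Q (L' ++ R)) :
    CmpQ Q (clo (redQ P x (C.filter fun L => permB L (seg s0 I)))) (seg s0 I) := by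
  have hn : (seg s0 I).Nodup := red_nodup (h.base.nodup_iff.mpr List.nodup_range) I
  intro L R hLp hV
  obtain ⟨L₁, hL₁, hV₁⟩ := hC L R hLp hV
  have hp₁ : L₁.Perm L := (List.perm_append_right_iff R).1 ((h.perm hV₁).trans (h.perm hV).symm)
  have hp₂ : L₁.Perm (seg s0 I) := hp₁.trans hLp
  obtain ⟨k, hk, hg, hall⟩ := h.rep I hI L₁ R hp₂ hV₁
  obtain ⟨L', hL'⟩ := red_take1 (D := (C.filter fun L => permB L (seg s0 I)).filter fun L => P.good x L k) (a := L₁)
    (List.mem_filter.mpr ⟨List.mem_filter.mpr ⟨hL₁, (permB_iff hn).mpr hp₂⟩, hg⟩)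
  have hm := List.mem_of_mem_take hL'
  rw [List.mem_filter, List.mem_filter] at hm
  refine ⟨L', ?_, hall L' (((permB_iff hn).mp hm.1.2).trans hp₂.symm) hm.2⟩
  unfold clo
  refine List.mem_append_left _ ?_
  unfold redQ
  exact List.mem_flatMap.mpr ⟨k, hk, hL'⟩

theorem red_permQ (hn : s0.Nodup) {I : Ivl} {C : List Ord} {L : Ord}
    (hL : L ∈ clo (redQ P x (C.filter fun L => permB L (seg s0 I)))) :
    L.Perm (seg s0 I) ∧ L.reverse ∈ clo (redQ P x (C.filter fun L => permB L (seg s0 I))) := by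
  have hn' : (seg s0 I).Nodup := red_nodup hn I
  have hm : ∀ L, L ∈ redQ P x (C.filter fun L => permB L (seg s0 I)) → L.Perm (seg s0 I) := by
    intro L hL
    unfold redQ at hL
    obtain ⟨k, _, hL⟩ := List.mem_flatMap.mp hL
    have h1 := List.mem_of_mem_take hL
    rw [List.mem_filter, List.mem_filter] at h1
    exact (permB_iff hn').mp h1.1.2
  unfold clo at hL ⊢
  rw [List.mem_append] at hL
  rcases hL with hL | hL
  · exact ⟨hm L hL, List.mem_append_right _ (List.mem_map.mpr ⟨L, hL, rfl⟩)⟩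
  · obtain ⟨L₀, hL₀, rfl⟩ := List.mem_map.mp hL
    refine ⟨(List.reverse_perm L₀).trans (hm L₀ hL₀), ?_⟩
    rw [List.reverse_reverse]
    exact List.mem_append_left _ hL₀



/-- the entries of the tables have the property -/
theorem red_innQ (h : HypQ P x n Q inn s0 F) {C : List Ord} {L : Ord} (hL : L ∈ clo (redQ P x C)) : inn L := by
  have hm : ∀ L, L ∈ redQ P x C → inn L := by
    intro L hL
    unfold redQ at hL
    obtain ⟨k, _, hL⟩ := List.mem_flatMap.mp hL
    have h1 := List.mem_of_mem_take hL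
    rw [List.mem_filter] at h1
    exact h.inn1 L k h1.2
  unfold clo at hL
  rw [List.mem_append] at hL
  rcases hL with hL | hL
  · exact hm L hL
  · obtain ⟨L₀, hL₀, rfl⟩ := List.mem_map.mp hL
    exact h.innr _ (hm L₀ hL₀)


end Pool.Agent.SPT
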