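import Pool.Agent.SPT.Nbi
import Pool.Agent.SOT.IntT
import Pool.Agent.SPE.TreeI

/-! Project SPT, module Str: the strong E-P-cuts relative to the pins. -/

set_option autoImplicit false

open Set

namespace Pool.Agent.SPT

open Pool.Agent.SOC Pool.Agent.SOD Pool.Agent.SOS Pool.Agent.SOP Pool.Agent.SOE Pool.Agent.SOT Pool.Agent.SPE

variable {M : Mat} {pn : Prs} {s : List (Fin M.length)}

/-- no pin is separated -/
def pnB (pn : Prs) (X : Ord) : Bool := pn.all fun p => decide (decide (p.1 ∈ X) = decide (p.2 ∈ X))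

/-- the nontrivial intervals of the base order which are E-P-cuts and separate no pin -/
def epcLP (x : Mat × Prs) (s0 : Ord) : List Ivl :=
  (List.range (s0.length + 1)).flatMap fun i => ((List.range (s0.length + 1)).map fun j => (i, j)).filter fun I =>
    (decide (1 ≤ I.1) && decide (I.1 + 2 ≤ I.2) && decide (I.2 + 2 ≤ s0.length + I.1) && epcB x.1 (seg s0 I)) && pnB x.2 (seg s0 I)

/-- the strong ones -/
def strLP (x : Mat × Prs) (s0 : Ord) : List Ivl := (epcLP x s0).filter fun I => (epcLP x s0).all fun J => !(ovl I J)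

omit s in
theorem pnB_iff {X : Ord} : pnB pn X = true ↔ ∀ p ∈ pn, p.1 ∈ X ↔ p.2 ∈ X := by
  unfold pnB
  rw [List.all_eq_true]
  refine forall₂_congr fun p _ => ?_
  rw [decide_eq_true_eq, decide_eq_decide]

theorem nc_pair {V : Type} {X : Set V} (hn : Nontriv X) {z a : V} : ¬ Crossing X {z, a} ↔ (z ∈ X ↔ a ∈ X) := by
  obtain ⟨⟨x, hx, x', hx', hxx⟩, y, hy, y', hy', hyy⟩ := hn
  have key : ∀ z a : V, z ∈ X → a ∉ X → Crossing X {z, a} := by
    intro z a hz ha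
    refine ⟨⟨z, hz, Or.inl rfl⟩, ?_, ⟨a, ha, Or.inr rfl⟩, ?_⟩
    · by_cases e : x = z
      · refine ⟨x', hx', ?_⟩
        rintro (k | k)
        · exact hxx (e.trans k.symm)
        · exact ha (k ▸ hx')
      · refine ⟨x, hx, ?_⟩
        rintro (k | k)
        · exact e k
        · exact ha (k ▸ hx)
    · by_cases e : y = a
      · refine ⟨y', hy', ?_⟩
        rintro (k | k)
        · exact hy' (k ▸ hz)
        · exact hyy (e.trans k.symm)
      · refine ⟨y, hy, ?_⟩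
        rintro (k | k)
        · exact hy (k ▸ hz)
        · exact e k
  constructor
  · intro h
    constructor
    · intro hz
      by_contra ha
      exact h (key z a hz ha)
    · intro ha
      by_contra hz
      refine h ?_
      rw [Set.pair_comm]
      exact key a z ha hz
  · rintro h ⟨⟨p, p1, p2⟩, -, ⟨q, q1, q2⟩, -⟩
    rcases p2 with rfl | rfl <;> rcases q2 with rfl | rfl
    · exact q1 p1
    · exact q1 (h.1 p1)
    · exact q1 (h.2 p1)
    · exact q1 p1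

omit s in
theorem pnB_ps {X : Ord} (hp : PinOk M.length pn) (hn : Nontriv (setW M X)) :
    pnB pn X = true ↔ ∀ S ∈ PS M pn, ¬ Crossing (setW M X) S := by
  rw [pnB_iff]
  constructor
  · rintro h S ⟨z, a, h1, -, rfl⟩
    exact (nc_pair hn).2 (h _ h1)
  · intro h p hm
    obtain ⟨h1, h2, h3⟩ := hp p hm
    exact (nc_pair hn).1 (h _ ⟨⟨p.1, h1⟩, ⟨p.2, h2⟩, hm, fun e => h3 (congrArg Fin.val e), rfl⟩)

omit s in
/-- a segment with two elements and two elements outside is nontrivial -/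
theorem seg_nt {s : List (Fin M.length)} (hE : IsEnum s) {I : Ivl} (h1 : 1 ≤ I.1) (h2 : I.1 + 2 ≤ I.2) (h3 : I.2 ≤ s.length)
    (h4 : I.2 + 2 ≤ s.length + I.1) : Nontriv (setW M (seg (s.map Fin.val) I)) := by
  obtain ⟨a, ha⟩ := strt_at hE (k := I.1) (by omega)
  obtain ⟨b, hb⟩ := strt_at hE (k := I.1 + 1) (by omega)
  obtain ⟨c, hc⟩ := strt_at hE (k := 0) (by omega)
  obtain ⟨d, hd1, hd2⟩ : ∃ d : Fin M.length, s.idxOf d ≠ 0 ∧ ¬ (I.1 ≤ s.idxOf d ∧ s.idxOf d < I.2) := by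
    by_cases h6 : 2 ≤ I.1
    · obtain ⟨d, hd⟩ := strt_at hE (k := 1) (by omega)
      exact ⟨d, by omega, by omega⟩
    · obtain ⟨d, hd⟩ := strt_at hE (k := I.2) (by omega)
      exact ⟨d, by omega, by omega⟩
  refine ⟨⟨a, (strt_seg hE I a).2 (by omega), b, (strt_seg hE I b).2 (by omega), strt_ne (s := s) (by omega)⟩, c, ?_, d, ?_,
    strt_ne (s := s) (by omega)⟩
  · rw [strt_seg hE]
    omega
  · rw [strt_seg hE]
    exact hd2

theorem strp_mem {s0 : Ord} {I : Ivl} : I ∈ strLP (M, pn) s0 ↔ I ∈ epcLP (M, pn) s0 ∧ ∀ J ∈ epcLP (M, pn) s0, ovl I J = false := by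
  unfold strLP
  rw [List.mem_filter, List.all_eq_true]
  simp only [Bool.not_eq_true']

theorem mem_epcLP {s0 : Ord} {I : Ivl} : I ∈ epcLP (M, pn) s0 ↔ 1 ≤ I.1 ∧ I.1 + 2 ≤ I.2 ∧ I.2 ≤ s0.length ∧ I.2 + 2 ≤ s0.length + I.1 ∧
    epcB M (seg s0 I) = true ∧ pnB pn (seg s0 I) = true := by
  unfold epcLP
  simp only [List.mem_flatMap, List.mem_range, List.mem_filter, List.mem_map, Bool.and_eq_true, decide_eq_true_eq]
  constructor
  · rintro ⟨i, hi, ⟨j, hj, rfl⟩, ⟨⟨⟨h1, h2⟩, h3⟩, h4⟩, h5⟩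
    exact ⟨h1, h2, by omega, h3, h4, h5⟩
  · rintro ⟨h1, h2, h3, h4, h5, h6⟩
    exact ⟨I.1, by omega, ⟨I.2, by omega, rfl⟩, ⟨⟨⟨h1, h2⟩, h4⟩, h5⟩, h6⟩

theorem strLP_lam (s0 : Ord) : Lam s0.length (strLP (M, pn) s0) := by
  refine ⟨fun I hI => ?_, fun I hI => ?_, fun I hI => ?_, fun I hI J hJ => ?_⟩
  · exact (mem_epcLP.1 (strp_mem.1 hI).1).1
  · exact (mem_epcLP.1 (strp_mem.1 hI).1).2.1
  · exact (mem_epcLP.1 (strp_mem.1 hI).1).2.2.1
  · exact (strp_mem.1 hI).2 J (strp_mem.1 hJ).1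

theorem strp_str (hG : PrimeG (graphOf M)) (hc : PinC (graphOf M) (PS M pn)) (hs : EWP (graphOf M) (PS M pn) s) (hp : PinOk M.length pn) {I : Ivl}
    (hI : I ∈ strLP (M, pn) (s.map Fin.val)) : StrP (graphOf M) (PS M pn) (setW M (seg (s.map Fin.val) I)) := by
  have hE := hs.ewo.enum
  have hIe := strp_mem.1 hI
  have hIm := mem_epcLP.1 hIe.1
  rw [List.length_map] at hIm
  obtain ⟨h1, h2, h3, h4, h5, h5p⟩ := hIm
  have key : ∀ Y, EPP (graphOf M) (PS M pn) Y → CI s Y → ∀ v₀ : Fin M.length, s.idxOf v₀ = 0 → v₀ ∉ Y →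
      ¬ Crossing (setW M (seg (s.map Fin.val) I)) Y := by
    intro Y hY hcY v₀ hv₀ hn
    obtain ⟨t, ht⟩ : ∃ t, s = v₀ :: t := by
      cases hcs : s with
      | nil => rw [hcs] at h3; simp at h3; omega
      | cons a t =>
        refine ⟨t, ?_⟩
        have h6 : s.idxOf a = 0 := by rw [hcs]; simp
        have h7 : v₀ = a := by
          by_contra hne
          exact strt_inj hE hne (by rw [hv₀, h6])
        rw [h7]
    obtain ⟨J, hJ1, hJ2, hJ3, rfl⟩ := ci_seg hE ht hcY hn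
    rintro ⟨⟨p, hp1, hp2⟩, ⟨q, hq1, hq2⟩, ⟨r, hr1, hr2⟩, -⟩
    rw [strt_seg hE] at hp1 hp2 hq1 hq2 hr1 hr2
    have hq3 := strt_lt hE q
    have hJ : J ∈ epcLP (M, pn) (s.map Fin.val) := by
      rw [mem_epcLP, List.length_map]
      exact ⟨hJ1, by omega, hJ3, by omega, epcB_iff.2 hY.epc, (pnB_ps hp (seg_nt hE hJ1 (by omega) hJ3 (by omega))).2 hY.pin⟩
    have h6 := hIe.2 J hJ
    have h7 : ¬ (ovl I J = true) := by rw [h6]; exact Bool.false_ne_true
    rw [strt_ovl] at h7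
    omega
  have hnt := seg_nt hE h1 h2 h3 h4
  rw [strp_iff hG hc hs]
  refine ⟨⟨epcB_iff.1 h5, (pnB_ps hp hnt).1 h5p⟩, hnt, seg_ci hE I, ?_⟩
  · intro Y hY hcY
    obtain ⟨v₀, hv₀⟩ := strt_at hE (k := 0) (by omega)
    by_cases hn : v₀ ∈ Y
    · have h6 := key Yᶜ hY.compl (IsSplit.compl (ordFn_skew hE) hcY) v₀ hv₀ (fun h => h hn)
      rwa [crossing_compl] at h6
    · exact key Y hY hcY v₀ hv₀ hn

theorem strp_ex (hG : PrimeG (graphOf M)) (hc : PinC (graphOf M) (PS M pn)) (hs : EWP (graphOf M) (PS M pn) s) (hp : PinOk M.length pn) {v₀ : Fin M.length}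
    {t : List (Fin M.length)} (e : s = v₀ :: t) {X : Set (Fin M.length)} (hX : StrP (graphOf M) (PS M pn) X) (h0 : v₀ ∉ X) :
    ∃ I ∈ strLP (M, pn) (s.map Fin.val), X = setW M (seg (s.map Fin.val) I) := by
  have hE := hs.ewo.enum
  obtain ⟨I, h1, h2, h3, hXI⟩ := ci_seg hE e (strp_ci hG hc hs hX) h0
  have hm : ∀ v, v ∈ X ↔ I.1 ≤ s.idxOf v ∧ s.idxOf v < I.2 := by
    intro v
    rw [hXI]
    exact strt_seg hE I v
  have hv₀ : s.idxOf v₀ = 0 := by rw [e]; simp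
  obtain ⟨⟨x, hx, x', hx', hne⟩, y, hy, y', hy', hne'⟩ := hX.nt
  have i1 := strt_inj hE hne
  have i2 := strt_inj hE hne'
  rw [hm] at hx hx' hy hy'
  have l1 := strt_lt hE y
  have l2 := strt_lt hE y'
  have hIe : I ∈ epcLP (M, pn) (s.map Fin.val) := by
    rw [mem_epcLP, List.length_map]
    have hnt := hX.nt
    have hep := hX.epp
    rw [hXI] at hnt hep
    exact ⟨h1, by omega, h3, by omega, epcB_iff.2 hep.epc, (pnB_ps hp hnt).2 hep.pin⟩
  refine ⟨I, strp_mem.2 ⟨hIe, ?_⟩, hXI⟩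
  intro J hJ
  have hJm := mem_epcLP.1 hJ
  rw [List.length_map] at hJm
  obtain ⟨j1, j2, j3, j4, j5, j6⟩ := hJm
  by_contra hcon
  have hov : ovl I J = true := by
    cases hb : ovl I J with
    | true => rfl
    | false => exact absurd hb hcon
  rw [strt_ovl] at hov
  have hst := hX.st _ ⟨epcB_iff.1 j5, (pnB_ps hp (seg_nt hE j1 j2 j3 j4)).1 j6⟩
  apply hst
  have t0 : v₀ ∉ setW M (seg (s.map Fin.val) J) := by
    rw [strt_seg hE]
    omega
  rcases hov with ⟨o1, o2, o3⟩ | ⟨o1, o2, o3⟩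
  · obtain ⟨p, hp⟩ := strt_at hE (k := J.1) (by omega)
    obtain ⟨q, hq⟩ := strt_at hE (k := I.1) (by omega)
    obtain ⟨r, hr⟩ := strt_at hE (k := I.2) (by omega)
    refine ⟨⟨p, (hm p).2 (by omega), (strt_seg hE J p).2 (by omega)⟩, ⟨q, (hm q).2 (by omega), ?_⟩,
      ⟨r, ?_, (strt_seg hE J r).2 (by omega)⟩, ⟨v₀, h0, t0⟩⟩
    · rw [strt_seg hE]
      omega
    · rw [hm]
      omega
  · obtain ⟨p, hp⟩ := strt_at hE (k := I.1) (by omega)
    obtain ⟨q, hq⟩ := strt_at hE (k := J.2) (by omega)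
    obtain ⟨r, hr⟩ := strt_at hE (k := J.1) (by omega)
    refine ⟨⟨p, (hm p).2 (by omega), (strt_seg hE J p).2 (by omega)⟩, ⟨q, (hm q).2 (by omega), ?_⟩,
      ⟨r, ?_, (strt_seg hE J r).2 (by omega)⟩, ⟨v₀, h0, t0⟩⟩
    · rw [strt_seg hE]
      omega
    · rw [hm]
      omega



/-- strong E-P-cuts are intervals of the orders with the pins -/
theorem int_vop (hG : PrimeG (graphOf M)) (hc : PinC (graphOf M) (PS M pn)) (hs : EWP (graphOf M) (PS M pn) s) (hp : PinOk M.length pn) {l : Ord}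
    (hl : VOP M pn l) {I : Ivl} (hI : I ∈ strLP (M, pn) (s.map Fin.val)) : Cyc l (seg (s.map Fin.val) I) := by
  obtain ⟨⟨s₁, rfl, hs₁, T, hT⟩, hpn⟩ := hl
  have h1 : EWP (graphOf M) (PS M pn) s₁ := ⟨ewo_of_qt hs₁ hT, vop_ci hs₁ hpn⟩
  have h2 := strp_ci hG hc h1 (strp_str hG hc hs hp hI)
  have hsub : (seg (s.map Fin.val) I).Sublist (s.map Fin.val) :=
    (List.take_sublist _ _).trans (List.drop_sublist _ _)
  refine ci_cyc hs₁ ?_ ?_ h2
  · exact hsub.nodup (hs.ewo.enum.1.map Fin.val_injective)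
  · intro x hx
    obtain ⟨v, _, rfl⟩ := List.mem_map.1 (hsub.subset hx)
    exact v.2

end Pool.Agent.SPT
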